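import Pool.Agent.R3B.StmtsL

/-!
# R3B, row CMP: comparison of two solutions
-/

set_option autoImplicit false

namespace Pool.Agent.R3B.H34

open Set Filter Topology MeasureTheory
open Pool.Agent.Helper39_Wave (phi continuous_phi monotone_phi phi_neg)
open Pool.Agent.R3B

/-- One-sided comparison. -/
theorem cmp_one {α ℓ η D0 : ℝ} {c1 c2 : ℝ → ℝ} {P1 P2 : ℝ → ℝ → ℝ} (hα : 0 < α) (hl : 0 < ℓ)
    (hη : 0 ≤ η) (hc1 : Continuous c1) (hc2 : Continuous c2) (hn1 : ∀ x, 0 ≤ c1 x)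
    (hP1 : Continuous (fun z : ℝ × ℝ => P1 z.1 z.2))
    (hP2 : Continuous (fun z : ℝ × ℝ => P2 z.1 z.2))
    (per1 : ∀ t y, P1 t (y + 2 * ℓ) = P1 t y) (per2 : ∀ t y, P2 t (y + 2 * ℓ) = P2 t y)
    (ode1 : ∀ t1 t2 y, 0 ≤ t1 → t1 ≤ t2 → P1 t2 y - P1 t1 y =
      -∫ s in t1..t2, c1 (y - s) * phi α (P1 s y - P1 s (2 * s - y)))
    (ode2 : ∀ t1 t2 y, 0 ≤ t1 → t1 ≤ t2 → P2 t2 y - P2 t1 y =
      -∫ s in t1..t2, c2 (y - s) * phi α (P2 s y - P2 s (2 * s - y)))
    (hD : ∀ y, P1 0 y - P2 0 y ≤ D0)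
    (hE : ∀ t y, 0 ≤ t →
      |c1 (y - t) - c2 (y - t)| * |phi α (P2 t y - P2 t (2 * t - y))| ≤ η) :
    ∀ t y, 0 ≤ t → P1 t y - P2 t y ≤ D0 + η * t := by
  intro t1 y1 ht1
  by_contra hcon
  push Not at hcon
  have hlt : 0 < t1 := by
    rcases ht1.eq_or_lt with h1 | h1
    · subst h1
      have := hD y1
      simp only [mul_zero, add_zero] at hcon
      linarith
    · exact h1
  set ε : ℝ := (P1 t1 y1 - P2 t1 y1 - D0 - η * t1) / (2 * t1) with hε
  have hεpos : 0 < ε := div_pos (by linarith) (by linarith)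
  have hε1 : ε * t1 < P1 t1 y1 - P2 t1 y1 - D0 - η * t1 := by
    have h1 : ε * t1 = (P1 t1 y1 - P2 t1 y1 - D0 - η * t1) / 2 := by
      rw [hε]; field_simp
    rw [h1]; linarith
  have hl2 : 0 < 2 * ℓ := by linarith
  have hper : ∀ t, Function.Periodic (fun y => P1 t y - P2 t y) (2 * ℓ) := by
    intro t y
    change P1 t (y + 2 * ℓ) - P2 t (y + 2 * ℓ) = P1 t y - P2 t y
    rw [per1, per2]
  obtain ⟨y1', hy1', hy1e⟩ := (hper t1).exists_mem_Ico₀ hl2 y1
  set K : Set (ℝ × ℝ) := Icc 0 t1 ×ˢ Icc 0 (2 * ℓ) with hK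
  have hKc : IsCompact K := isCompact_Icc.prod isCompact_Icc
  have hmem1 : ((t1, y1') : ℝ × ℝ) ∈ K := ⟨⟨hlt.le, le_rfl⟩, ⟨hy1'.1, hy1'.2.le⟩⟩
  have hcontQ : ContinuousOn (fun z : ℝ × ℝ => P1 z.1 z.2 - P2 z.1 z.2 - (η + ε) * z.1) K :=
    ((hP1.sub hP2).sub (by fun_prop)).continuousOn
  obtain ⟨⟨ts, ys⟩, hz, hmax⟩ := hKc.exists_isMaxOn ⟨_, hmem1⟩ hcontQ
  have hmax' : ∀ t y, 0 ≤ t → t ≤ t1 →
      P1 t y - P2 t y - (η + ε) * t ≤ P1 ts ys - P2 ts ys - (η + ε) * ts := by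
    intro t y h1 h2
    obtain ⟨y', hy', hye⟩ := (hper t).exists_mem_Ico₀ hl2 y
    have := hmax (show ((t, y') : ℝ × ℝ) ∈ K from ⟨⟨h1, h2⟩, ⟨hy'.1, hy'.2.le⟩⟩)
    have hye' : P1 t y - P2 t y = P1 t y' - P2 t y' := hye
    rw [hye']
    exact this
  have hts : 0 ≤ ts ∧ ts ≤ t1 := hz.1
  have hgt : D0 < P1 ts ys - P2 ts ys - (η + ε) * ts := by
    have := hmax' t1 y1 hlt.le le_rfl
    have h2 : (η + ε) * t1 = η * t1 + ε * t1 := by ring
    linarith
  have hts0 : 0 < ts := by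
    rcases hts.1.eq_or_lt with h1 | h1
    · rw [← h1] at hgt
      have := hD ys
      linarith
    · exact h1
  have hV : P2 ts ys - P2 ts (2 * ts - ys) ≤ P1 ts ys - P1 ts (2 * ts - ys) := by
    have := hmax' ts (2 * ts - ys) hts.1 hts.2
    linarith
  have hV1c : Continuous (fun s : ℝ => phi α (P1 s ys - P1 s (2 * s - ys))) := by
    apply (continuous_phi hα).comp
    exact (hP1.comp (by fun_prop : Continuous fun s : ℝ => ((s, ys) : ℝ × ℝ))).sub
      (hP1.comp (by fun_prop : Continuous fun s : ℝ => ((s, 2 * s - ys) : ℝ × ℝ)))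
  have hV2c : Continuous (fun s : ℝ => phi α (P2 s ys - P2 s (2 * s - ys))) := by
    apply (continuous_phi hα).comp
    exact (hP2.comp (by fun_prop : Continuous fun s : ℝ => ((s, ys) : ℝ × ℝ))).sub
      (hP2.comp (by fun_prop : Continuous fun s : ℝ => ((s, 2 * s - ys) : ℝ × ℝ)))
  have hk1 : Continuous (fun s : ℝ => c1 (ys - s)) := hc1.comp (by fun_prop)
  have hk2 : Continuous (fun s : ℝ => c2 (ys - s)) := hc2.comp (by fun_prop)
  have hg0 : 0 ≤ c1 (ys - ts) * (phi α (P1 ts ys - P1 ts (2 * ts - ys)) -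
      phi α (P2 ts ys - P2 ts (2 * ts - ys))) :=
    mul_nonneg (hn1 _) (sub_nonneg.mpr (monotone_phi hα hV))
  have hgc : Continuous (fun s : ℝ => c1 (ys - s) * (phi α (P1 s ys - P1 s (2 * s - ys)) -
      phi α (P2 s ys - P2 s (2 * s - ys)))) := hk1.mul (hV1c.sub hV2c)
  have hev : ∀ᶠ s in 𝓝 ts, -(ε / 2) < c1 (ys - s) * (phi α (P1 s ys - P1 s (2 * s - ys)) -
      phi α (P2 s ys - P2 s (2 * s - ys))) := by
    apply hgc.continuousAt.eventually (lt_mem_nhds _)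
    simp only
    linarith
  obtain ⟨δ, hδ, hball⟩ := Metric.eventually_nhds_iff.mp hev
  set s0 : ℝ := max 0 (ts - δ / 2) with hs0
  have hs0lt : s0 < ts := max_lt hts0 (by linarith)
  have hs0ge : 0 ≤ s0 := le_max_left _ _
  have hode1 := ode1 s0 ts ys hs0ge hs0lt.le
  have hode2 := ode2 s0 ts ys hs0ge hs0lt.le
  have hi1 : IntervalIntegrable (fun s : ℝ => c1 (ys - s) *
      phi α (P1 s ys - P1 s (2 * s - ys))) volume s0 ts := (hk1.mul hV1c).intervalIntegrable _ _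
  have hi2 : IntervalIntegrable (fun s : ℝ => c2 (ys - s) *
      phi α (P2 s ys - P2 s (2 * s - ys))) volume s0 ts := (hk2.mul hV2c).intervalIntegrable _ _
  have hsub := intervalIntegral.integral_sub hi1 hi2
  have hlow : -(ε / 2 + η) * (ts - s0) ≤
      ∫ s in s0..ts, (c1 (ys - s) * phi α (P1 s ys - P1 s (2 * s - ys)) -
        c2 (ys - s) * phi α (P2 s ys - P2 s (2 * s - ys))) := by
    have h1 : ∫ _s in s0..ts, (-(ε / 2 + η)) = (ts - s0) * (-(ε / 2 + η)) := by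
      rw [intervalIntegral.integral_const, smul_eq_mul]
    have h2 : ∫ _s in s0..ts, (-(ε / 2 + η)) ≤
        ∫ s in s0..ts, (c1 (ys - s) * phi α (P1 s ys - P1 s (2 * s - ys)) -
          c2 (ys - s) * phi α (P2 s ys - P2 s (2 * s - ys))) := by
      apply intervalIntegral.integral_mono_on hs0lt.le (by simp) (hi1.sub hi2)
      intro s hs
      have hs0' : 0 ≤ s := hs0ge.trans hs.1
      have h3 : -(ε / 2) < c1 (ys - s) * (phi α (P1 s ys - P1 s (2 * s - ys)) -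
          phi α (P2 s ys - P2 s (2 * s - ys))) := by
        apply hball
        rw [Real.dist_eq, abs_lt]
        have := le_max_right (0 : ℝ) (ts - δ / 2)
        constructor <;> linarith [hs.1, hs.2]
      have h4 := hE s ys hs0'
      rw [← abs_mul] at h4
      have h5 := (abs_le.mp h4).1
      have h6 : c1 (ys - s) * phi α (P1 s ys - P1 s (2 * s - ys)) -
          c2 (ys - s) * phi α (P2 s ys - P2 s (2 * s - ys)) =
          c1 (ys - s) * (phi α (P1 s ys - P1 s (2 * s - ys)) -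
            phi α (P2 s ys - P2 s (2 * s - ys))) +
          (c1 (ys - s) - c2 (ys - s)) * phi α (P2 s ys - P2 s (2 * s - ys)) := by ring
      change -(ε / 2 + η) ≤ c1 (ys - s) * phi α (P1 s ys - P1 s (2 * s - ys)) -
          c2 (ys - s) * phi α (P2 s ys - P2 s (2 * s - ys))
      rw [h6]
      linarith
    rw [h1] at h2
    linarith
  rw [hsub] at hlow
  have h8 := hmax' s0 ys hs0ge (hs0lt.le.trans hts.2)
  have h9 : (η + ε) * (ts - s0) ≤ (ε / 2 + η) * (ts - s0) := by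
    have h10 : (η + ε) * (ts - s0) = (η + ε) * ts - (η + ε) * s0 := by ring
    have h11 : -(ε / 2 + η) * (ts - s0) = -((ε / 2 + η) * (ts - s0)) := by ring
    rw [h11] at hlow
    rw [h10]
    linarith
  have h12 : 0 < ε / 2 * (ts - s0) := mul_pos (by linarith) (by linarith)
  have h13 : (η + ε) * (ts - s0) = (ε / 2 + η) * (ts - s0) + ε / 2 * (ts - s0) := by ring
  linarith

/-- CMP. -/
theorem cmp : CmpStmt := by
  intro α ℓ η D0 c1 c2 P1 P2 hα hl hη hc1 hc2 hn1 hP1 hP2 per1 per2 ode1 ode2 hD hE t y ht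
  have h1 := cmp_one hα hl hη hc1 hc2 hn1 hP1 hP2 per1 per2 ode1 ode2
    (fun y => (abs_le.mp (hD y)).2) hE t y ht
  have hneg : ∀ (P : ℝ → ℝ → ℝ) (s y : ℝ),
      phi α (-P s y - -P s (2 * s - y)) = -phi α (P s y - P s (2 * s - y)) := by
    intro P s y
    rw [← phi_neg]
    congr 1; ring
  have hode : ∀ (c : ℝ → ℝ) (P : ℝ → ℝ → ℝ), (∀ t1 t2 y, 0 ≤ t1 → t1 ≤ t2 → P t2 y - P t1 y =
      -∫ s in t1..t2, c (y - s) * phi α (P s y - P s (2 * s - y))) →
      ∀ t1 t2 y, 0 ≤ t1 → t1 ≤ t2 → (fun t y => -P t y) t2 y - (fun t y => -P t y) t1 y =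
      -∫ s in t1..t2, c (y - s) *
        phi α ((fun t y => -P t y) s y - (fun t y => -P t y) s (2 * s - y)) := by
    intro c P h t1 t2 y a1 a2
    have h3 := h t1 t2 y a1 a2
    have h4 : ∀ s, c (y - s) *
        phi α ((fun t y => -P t y) s y - (fun t y => -P t y) s (2 * s - y)) =
        -(c (y - s) * phi α (P s y - P s (2 * s - y))) := by
      intro s
      change c (y - s) * phi α (-P s y - -P s (2 * s - y)) = _
      rw [hneg]
      ring
    simp_rw [h4]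
    rw [intervalIntegral.integral_neg]
    change -P t2 y - -P t1 y = _
    linarith
  have h2 := cmp_one (P1 := fun t y => -P1 t y) (P2 := fun t y => -P2 t y) (D0 := D0)
    hα hl hη hc1 hc2 hn1 hP1.neg hP2.neg
    (fun t y => by change -P1 t (y + 2 * ℓ) = -P1 t y; rw [per1])
    (fun t y => by change -P2 t (y + 2 * ℓ) = -P2 t y; rw [per2])
    (hode c1 P1 ode1) (hode c2 P2 ode2)
    (fun y => by
      change -P1 0 y - -P2 0 y ≤ D0
      have := (abs_le.mp (hD y)).1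
      linarith)
    (fun t y ht => by
      change |c1 (y - t) - c2 (y - t)| * |phi α (-P2 t y - -P2 t (2 * t - y))| ≤ η
      rw [hneg, abs_neg]
      exact hE t y ht) t y ht
  have h3 : -P1 t y - -P2 t y ≤ D0 + η * t := h2
  rw [abs_le]
  constructor <;> linarith

end Pool.Agent.R3B.H34
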